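import Pool.Agent.helper41.HFE.AllK

set_option autoImplicit false

/-!
# Hilbert functions of double points in `ℙ¹ × ℙ¹`: the classification on one half of the square

`H` is the Hilbert function of `R / I_Y^(2)` (`hilbert (doubleIdeal Y)`), `Y` a set of `r` points of `ℙ¹ × ℙ¹`.

The region `InU k r`: `i, j ≥ k`, `i + j ≥ r + 1`, `k i + j ≥ 2 r - 1`, `i + k j ≥ 2 r - 1`. The theorem says which functions on this region are restrictions of Hilbert functions: exactly the functions `3 r - D`, where `D` is given by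
the incidence matrix `M` of the points and by the set `W` of the points on one curve `C` of bidegree `(a, b)`, `a = 1` or `b = 1`, `a b < k`; there is no condition on `W` but the obvious one (at most `a` points in every row and `b` points in every column).
`D(i,j)` is the maximum of (length of the intersection of the double points with the divisor) - (number of conditions of the divisor) over the divisors `t C + columns + rows`, with multiplicities `t ≤ 1` and `≤ 2`.

Proof (rows in `Pool.Agent.helper41.HFE.Spec`, `SpecD`, `SpecK`): by the theorem `OneCurve` the defect `3 r - H(i,j)` is `len - conds` for one curve `f` with `a ≤ 1` or `b ≤ 1`; such a curve is a graph and lines; only one graph can be better than the lines alone (Bezout), and the bounds for the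
points on it; conversely the points of `W` can be put on the curve `x = y ^ b`, the other points general.
-/

namespace Pool.Agent.Results.MP_3221a1_ag.HalfSquare

open Pool.Agent.helper97.FP

variable {h h' : ℕ}

/-- number of elements of `M` in the column `x` -/
def col (M : Finset (Fin h × Fin h')) (x : Fin h) : ℕ := (M.filter fun p => p.1 = x).card

/-- number of elements of `M` in the row `y` -/
def row (M : Finset (Fin h × Fin h')) (y : Fin h') : ℕ := (M.filter fun p => p.2 = y).card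

/-- the length of the intersection of a double point with a divisor which has the multiplicity `m` in the point -/
def wt (m : ℕ) : ℕ := if m = 0 then 0 else if m = 1 then 2 else 3

/-- the number of conditions: `dim R_(i,j) - dim R_(i-a,j-b)` -/
def conds (i j a b : ℕ) : ℕ := (i + 1) * (j + 1) - (i + 1 - a) * (j + 1 - b)

/-- the length of the intersection of the double points with the divisor `t C + ∑ u x (column x) + ∑ w y (row y)`, `W` the set of the points on `C` -/
def leng (M W : Finset (Fin h × Fin h')) (t : ℕ) (u : Fin h → ℕ) (w : Fin h' → ℕ) : ℕ :=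
  ∑ p ∈ M, wt ((if p ∈ W then t else 0) + u p.1 + w p.2)

/-- the maximum of `length - conditions` (truncated at `0`) over the divisors `t C + ∑ u x (column x) + ∑ w y (row y)` with `t ≤ 1`, `u x ≤ 2`, `w y ≤ 2`; `(a, b)` is the bidegree of `C` -/
def D (M W : Finset (Fin h × Fin h')) (a b i j : ℕ) : ℕ :=
  Finset.univ.sup fun q : Fin 2 × (Fin h → Fin 3) × (Fin h' → Fin 3) =>
    leng M W q.1 (fun x => q.2.1 x) (fun y => q.2.2 y) -
      conds i j (q.1 * a + ∑ x, (q.2.1 x : ℕ)) (q.1 * b + ∑ y, (q.2.2 y : ℕ))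

/-- the data: `M` the incidence matrix of the `r` points, `W` the set of the points on the curve `C` of bidegree `(a, b)` -/
structure Data (k r : ℕ) (M W : Finset (Fin h × Fin h')) (a b : ℕ) : Prop where
  card : M.card = r
  cols : ∀ x, 1 ≤ col M x
  rows : ∀ y, 1 ≤ row M y
  a_pos : 1 ≤ a
  b_pos : 1 ≤ b
  graph : a = 1 ∨ b = 1
  small : a * b + 1 ≤ k
  sub : W ⊆ M
  rowsW : ∀ y, row W y ≤ a
  colsW : ∀ x, col W x ≤ b

/-- the region -/
def InU (k r i j : ℕ) : Prop := k ≤ i ∧ k ≤ j ∧ r + 1 ≤ i + j ∧ 2 * r ≤ k * i + j + 1 ∧ 2 * r ≤ i + k * j + 1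

theorem data_iff (k r : ℕ) (M W : Finset (Fin h × Fin h')) (a b : ℕ) : Data k r M W a b ↔ Pool.Agent.HFE.DatK M W k a b r := by
  constructor
  · rintro ⟨h1, h2, h3, h4, h5, h6, h7, h8, h9, h10⟩
    exact ⟨h1, h2, h3, h4, h5, h6, h7, h8, h9, h10⟩
  · rintro ⟨h1, h2, h3, h4, h5, h6, h7, h8, h9, h10⟩
    exact ⟨h1, h2, h3, h4, h5, h6, h7, h8, h9, h10⟩

theorem D_eq (M W : Finset (Fin h × Fin h')) (a b i j : ℕ) : D M W a b i j = Pool.Agent.HFE.Df M W a b i j := rfl

theorem inU_aux1 (k r s : ℕ) (hk : 2 ≤ k) (hr : k * k + 2 * k ≤ r + 2) (hs : r ≤ s * s) : k + 1 ≤ s := by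
  by_contra h
  have h1 : s ≤ k := by omega
  have h2 : s * s ≤ k * k := Nat.mul_le_mul h1 h1
  omega

theorem inU_aux (k r s t : ℕ) (hk : 2 ≤ k) (hr : k * k + 2 * k ≤ r + 2) (hr' : r + 3 < (k + 2) * (k + 2)) (hij : r + 1 ≤ (s + 5) + (t + 5))
    (hs : r ≤ s * s) (ht : r ≤ t * t) : 2 * r ≤ k * (s + 5) + (t + 5) + 1 := by
  have h1 := inU_aux1 k r s hk hr hs
  have h2 := inU_aux1 k r t hk hr ht
  obtain ⟨u, rfl⟩ : ∃ u, s = k + 1 + u := ⟨s - (k + 1), by omega⟩
  rcases Nat.eq_zero_or_pos u with rfl | hu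
  · nlinarith
  · obtain ⟨v, rfl⟩ : ∃ v, u = v + 1 := ⟨u - 1, by omega⟩
    rcases Nat.lt_or_ge k 3 with hk3 | hk3
    · have hk2 : k = 2 := by omega
      subst hk2
      omega
    · have e1 : k * (k + 1 + (v + 1) + 5) = k * k + 7 * k + k * v := by ring
      have e2 : (k + 2) * (k + 2) = k * k + 4 * k + 4 := by ring
      have e3 : v ≤ k * v := by
        calc v = 1 * v := (one_mul v).symm
          _ ≤ k * v := Nat.mul_le_mul_right v (by omega)
      rw [e1]
      rw [e2] at hr'
      omega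

/-- for `k = ⌊√(r + 3)⌋ - 1` the region contains all `i + j ≥ r + 1` with `i, j ≥ √r + 5` -/
theorem inU_of (k r : ℕ) (hk : 2 ≤ k) (hr : k * k + 2 * k ≤ r + 2) (hr' : r + 3 < (k + 2) * (k + 2)) (i j : ℕ) (hij : r + 1 ≤ i + j) (hi : r ≤ (i - 5) ^ 2)
    (hj : r ≤ (j - 5) ^ 2) : InU k r i j := by
  rw [pow_two] at hi hj
  have h1 := inU_aux1 k r (i - 5) hk hr hi
  have h2 := inU_aux1 k r (j - 5) hk hr hj
  obtain ⟨s, rfl⟩ : ∃ s, i = s + 5 := ⟨i - 5, by omega⟩
  obtain ⟨t, rfl⟩ : ∃ t, j = t + 5 := ⟨j - 5, by omega⟩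
  rw [Nat.add_sub_cancel] at hi hj h1 h2
  have h3 := inU_aux k r s t hk hr hr' hij hi hj
  have h4 := inU_aux k r t s hk hr hr' (by omega) hj hi
  exact ⟨by omega, by omega, hij, h3, by omega⟩

/-- **The classification on the region `InU k r`**, and: for `k = ⌊√(r + 3)⌋ - 1` the region contains all `i + j ≥ r + 1` with `i, j ≥ √r + 5`. -/
theorem result (k r : ℕ) (hk : 2 ≤ k) (hr : k * k + 2 * k ≤ r + 2) :
    (∀ F : ℕ → ℕ → ℕ, (∃ Y : Finset Point, Y.card = r ∧ ∀ i j, InU k r i j → hilbert (doubleIdeal Y) i j = F i j) ↔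
      ∃ (h h' : ℕ) (M W : Finset (Fin h × Fin h')) (a b : ℕ), Data k r M W a b ∧ ∀ i j, InU k r i j → F i j + D M W a b i j = 3 * r) ∧
    (r + 3 < (k + 2) * (k + 2) → ∀ i j, r + 1 ≤ i + j → r ≤ (i - 5) ^ 2 → r ≤ (j - 5) ^ 2 → InU k r i j) := by
  refine ⟨fun F => ?_, fun hr' i j hij hi hj => inU_of k r hk hr hr' i j hij hi hj⟩
  obtain ⟨h1, h2⟩ := Pool.Agent.HFE.k_MainK k r hk hr
  constructor
  · rintro ⟨Y, hY, hF⟩
    obtain ⟨h, h', M, W, a, b, hD, hE⟩ := h1 Y hY
    refine ⟨h, h', M, W, a, b, (data_iff k r M W a b).2 hD, fun i j hij => ?_⟩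
    rw [← hF i j hij]
    exact hE i j hij
  · rintro ⟨h, h', M, W, a, b, hD, hE⟩
    obtain ⟨Y, hY, hF⟩ := h2 h h' M W a b ((data_iff k r M W a b).1 hD)
    refine ⟨Y, hY, fun i j hij => ?_⟩
    have e1 := hF i j hij
    have e2 := hE i j hij
    rw [D_eq] at e2
    exact Nat.add_right_cancel (e1.trans e2.symm)

end Pool.Agent.Results.MP_3221a1_ag.HalfSquare
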