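import Pool.Agent.helper78.HFN.Lim

/-!
# Hilbert functions of double points in `ℙ¹ × ℙ¹` up to lower order

`H` is the Hilbert function of `R / I_Y^(2)` (`hilbert (doubleIdeal Y)`), `Y` a set of `r` points of `ℙ¹ × ℙ¹`.

A curve of bidegree `(a, b)` has the intersection number `i b + j a` with a curve of bidegree `(i, j)`; if it contains `n` points of `Y`
then it lowers `H(i, j)` by `loss n (i b + j a) = (2 n - (i b + j a))⁺ + (n - (i b + j a))⁺`. The theorem says that there is no other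
reason for a small `H(i, j)`, up to lower order, and that the curves and the numbers of points on them are arbitrary: in the
limit `r → ∞` exactly, and for every `r` with an error of at most `264 r² / (S T)` for all `i ≥ S`, `j ≥ T`.

Proof: affine model (`Pool.Agent.helper97.FP`); the forms of bidegree `≤ (S/2, T/2)` which are double at `Y` have a common part `B` of small
bidegree (dimension count); the residual scheme of `B` lies on two curves without common component, so it imposes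
independent conditions; on the components of `B` the number of conditions is given by Bezout's theorem up to `O(dX B * dY B)`. Rows and
proofs: `Pool.Agent.helper78.HFN.Spec`.
-/

set_option autoImplicit false

namespace Pool.Agent.Results.MP_3221a1_ag.InnerSquare

open Pool.Agent.helper97.FP Filter Topology

/-- the bidegrees of the irreducible curves of `ℙ¹ × ℙ¹` -/
def IsType (a b : ℕ) : Prop := (a = 1 ∧ b = 0) ∨ (a = 0 ∧ b = 1) ∨ (1 ≤ a ∧ 1 ≤ b)

/-- `(2 ν - d)⁺ + (ν - d)⁺` -/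
noncomputable def loss (ν d : ℝ) : ℝ := max 0 (2 * ν - d) + max 0 (ν - d)

/-- `h` is a limit of normalized Hilbert functions of double points: `H_k(x r_k, y r_k) / r_k → h(x, y)` for all `x, y > 0`, for sets `Y_k`
of `r_k` points, `r_k → ∞` -/
def IsLimit (h : ℝ → ℝ → ℝ) : Prop := ∃ (r : ℕ → ℕ) (Y : ℕ → Finset Point), (∀ k, (Y k).card = r k) ∧ Tendsto r atTop atTop ∧
  ∀ x y : ℝ, 0 < x → 0 < y → Tendsto (fun k => (hilbert (doubleIdeal (Y k)) ⌊x * r k⌋₊ ⌊y * r k⌋₊ : ℝ) / r k) atTop (𝓝 (h x y))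

/-- data for `r` points: types `(a t, b t)` and numbers `n t` with sum at most `r` -/
def IsData (r m : ℕ) (a b n : Fin m → ℕ) : Prop := (∀ t, IsType (a t) (b t)) ∧ ∑ t, n t ≤ r

/-- `F(i,j) = 3 r - ∑ loss n (i b + j a)` -/
noncomputable def F (r m : ℕ) (a b n : Fin m → ℕ) (i j : ℕ) : ℝ := 3 * r - ∑ t, loss (n t) (i * b t + j * a t)

theorem F_eq (r m : ℕ) (a b n : Fin m → ℕ) (i j : ℕ) : F r m a b n i j = (Pool.Agent.HFN.Fn r m a b n i j : ℝ) := by
  unfold F Pool.Agent.HFN.Fn Pool.Agent.HFN.ex loss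
  push_cast
  congr 1
  refine Finset.sum_congr rfl fun t _ => ?_
  have e : ∀ u v : ℕ, max 0 ((u : ℝ) - v) = ((u - v : ℕ) : ℝ) := by
    intro u v
    rcases le_total v u with h | h
    · rw [Nat.cast_sub h, max_eq_right]
      have : (v : ℝ) ≤ u := by exact_mod_cast h
      linarith
    · rw [Nat.sub_eq_zero_of_le h, Nat.cast_zero, max_eq_left]
      have : (u : ℝ) ≤ v := by exact_mod_cast h
      linarith
  have e1 := e (2 * n t) (i * b t + j * a t)
  have e2 := e (n t) (i * b t + j * a t)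
  push_cast at e1 e2
  rw [e1, e2]

/-- from integers to real numbers -/
theorem bound_eq {H G : ℤ} {S T r : ℕ} (h : |H - G| * (S * T) ≤ 264 * (r : ℤ) ^ 2) :
    |(H : ℝ) - (G : ℝ)| * (S * T) ≤ 264 * (r : ℝ) ^ 2 := by
  have h1 : ((|H - G| * (S * T) : ℤ) : ℝ) ≤ ((264 * (r : ℤ) ^ 2 : ℤ) : ℝ) := by exact_mod_cast h
  push_cast at h1
  exact h1

/-- **The Hilbert functions of `r` double points up to lower order**: the limit functions, and for every `r` the functions for
`i ≥ S`, `j ≥ T` up to the error `264 r² / (S T)`. -/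
theorem result :
    -- the limit functions
    (∀ h : ℝ → ℝ → ℝ, IsLimit h ↔ ∃ (a b : ℕ → ℕ) (ν : ℕ → ℝ), (∀ t, IsType (a t) (b t)) ∧ (∀ t, 0 ≤ ν t) ∧ Summable ν ∧
      ∑' t, ν t ≤ 1 ∧ ∀ x y : ℝ, 0 < x → 0 < y → h x y = 3 - ∑' t, loss (ν t) (x * b t + y * a t)) ∧
    ∀ r S T : ℕ, 3 ≤ S → 3 ≤ T → S ≤ 2 * r → T ≤ 2 * r → 100 * r ≤ S * T →
      -- every configuration has data
      (∀ Y : Finset Point, Y.card = r → ∃ (m : ℕ) (a b n : Fin m → ℕ), IsData r m a b n ∧ ∀ i j : ℕ, S ≤ i → T ≤ j →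
        |(hilbert (doubleIdeal Y) i j : ℝ) - F r m a b n i j| * (S * T) ≤ 264 * (r : ℝ) ^ 2) ∧
      -- all data occur
      (∀ (m : ℕ) (a b n : Fin m → ℕ), IsData r m a b n → ∃ Y : Finset Point, Y.card = r ∧ ∀ i j : ℕ, S ≤ i → T ≤ j →
        |(hilbert (doubleIdeal Y) i j : ℝ) - F r m a b n i j| * (S * T) ≤ 264 * (r : ℝ) ^ 2) := by
  refine ⟨fun h => Pool.Agent.HFN.lim_all h, fun r S T hS hT hS2 hT2 hST => ?_⟩
  obtain ⟨h1, h2⟩ := Pool.Agent.HFN.main_all r S T hS hT hS2 hT2 hST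
  constructor
  · intro Y hY
    obtain ⟨m, a, b, n, hD, hb⟩ := h1 Y hY
    refine ⟨m, a, b, n, ⟨hD.ty, hD.sum_le⟩, fun i j hi hj => ?_⟩
    rw [F_eq]
    have := bound_eq (hb i j hi hj)
    rwa [Int.cast_natCast] at this
  · intro m a b n hD
    obtain ⟨Y, hY, hb⟩ := h2 m a b n ⟨hD.1, hD.2⟩
    refine ⟨Y, hY, fun i j hi hj => ?_⟩
    rw [F_eq]
    have := bound_eq (hb i j hi hj)
    rwa [Int.cast_natCast] at this

end Pool.Agent.Results.MP_3221a1_ag.InnerSquare
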