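import Pool.Agent.helper41.HFE.All

set_option autoImplicit false

/-!
# Hilbert functions of double points in `ℙ¹ × ℙ¹`: the exact value on half of the square, and one curve in general

`H` is the Hilbert function of `R / I_Y^(2)` (`hilbert (doubleIdeal Y)`), `Y` a set of `r` points of `ℙ¹ × ℙ¹`. For a form `F ≠ 0` of bidegree `(a, b)` let `len Y F` be the length of
the intersection of the double points with the curve `F = 0`, and `conds i j a b` the number of conditions which it imposes on the forms of bidegree `(i, j)`. Every curve gives a lower bound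
of the defect: `3 r - H(i,j) ≥ len Y F - conds i j a b`. The theorem: if `i, j ≥ 2`, `i + j ≥ r + 1` then the defect IS this number for one curve, with `a ≤ 1` or `b ≤ 1`; and in the whole region
`(i+2)(j+2) > 6 r` it is this number for one curve up to at most `(a-1)⁺(b-1)⁺` (the arithmetic genus).

Proof (rows in `Pool.Agent.helper41.HFE.Spec`, docstrings): a functional on `A / I`, `I` the ideal of the double points in the affine plane, generates a module of length at most `2 r`, and its Hilbert function has a
symmetry; so it is killed by a curve of small bidegree; a divisibility lemma (complete intersections) shows that one curve kills all the functionals which vanish on the forms of bidegree `(i, j)`.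
-/

namespace Pool.Agent.Results.MP_3221a1_ag.OneCurve

open Pool.Agent.helper97.FP

open Classical in
/-- the length of the intersection of the scheme of double points at `Y` with the curve `F = 0`: `2` for every point of `Y` on the curve, and `1` more if `F ∈ I_P²` -/
noncomputable def len (Y : Finset Point) (F : MvPolynomial (Fin 4) ℂ) : ℕ :=
  2 * (Y.filter fun P => F ∈ idealPoint P).card + (Y.filter fun P => F ∈ idealPoint P ^ 2).card

/-- the number of conditions: `dim R_(i,j) - dim R_(i-a,j-b)` -/
def conds (i j a b : ℕ) : ℕ := (i + 1) * (j + 1) - (i + 1 - a) * (j + 1 - b)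

/-- the possible bidegrees of the curve -/
def Deg (i j r a b : ℕ) : Prop := 2 * a ≤ i + 1 ∧ 2 * b ≤ j + 1 ∧ b * (i + 2 - a) + a * (j + 2 - b) ≤ 2 * r

/-- **One curve.** -/
theorem result (Y : Finset Point) (i j : ℕ) :
    -- every curve gives a lower bound of the defect
    (∀ (a b : ℕ) (F : MvPolynomial (Fin 4) ℂ), F ∈ forms a b → F ≠ 0 →
      hilbert (doubleIdeal Y) i j + len Y F ≤ 3 * Y.card + conds i j a b) ∧
    -- the exact value
    (2 ≤ i → 2 ≤ j → Y.card + 1 ≤ i + j → ∃ (a b : ℕ) (F : MvPolynomial (Fin 4) ℂ), F ∈ forms a b ∧ F ≠ 0 ∧ Deg i j Y.card a b ∧ (a ≤ 1 ∨ b ≤ 1) ∧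
      3 * Y.card + conds i j a b = hilbert (doubleIdeal Y) i j + len Y F) ∧
    -- the value up to the genus of the curve
    (6 * Y.card < (i + 2) * (j + 2) → ∃ (a b : ℕ) (F : MvPolynomial (Fin 4) ℂ), F ∈ forms a b ∧ F ≠ 0 ∧ Deg i j Y.card a b ∧
      3 * Y.card + conds i j a b ≤ hilbert (doubleIdeal Y) i j + len Y F + (a - 1) * (b - 1)) := by
  obtain ⟨h1, h2, h3⟩ := Pool.Agent.HFE.h_MainAB Y i j
  exact ⟨h1, h3, h2⟩

end Pool.Agent.Results.MP_3221a1_ag.OneCurve
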