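import Pool.Agent.helper87.TR.Main

/-!
# Hilbert functions of double points in `ℙ¹ × ℙ¹`: the first three rows and the outer region

For `r` points, the restrictions of the Hilbert functions of the schemes of double points to
`{(i,j) : j ≤ 2 or i ≥ r - 1}` are exactly the restrictions of the explicit functions
`Psi n S e w`, and every Hilbert function is given by two such functions (one for each ruling) at all
`(i,j)` outside the square `3 ≤ i, j ≤ r - 2`.

More precisely the `r - 1` may be replaced by `∑ min(2, n_k) - 1`, where the `n_k` are the numbers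
of points on the lines of a ruling. The numbers `e`, `w` and the set `S` come from a rational curve
of bidegree `(e,1)` and from the minimal degrees of the forms of degree 2 in the second variables
which are double at `Y`.
-/

open Pool.Agent.helper97.FP Pool.Agent.helper87.TR

theorem Pool.Agent.Results.MP_3221a1_ag.ThirdRow.result (r : ℕ) :
    (∀ Y : Finset Point, Y.card = r →
      (∃ (h : ℕ) (n : Fin h → ℕ) (S : Finset (Fin h)) (e w : ℕ), Adm n S e w r ∧
        ∀ i j, (j ≤ 2 ∨ ∑ k, min 2 (n k) ≤ i + 1) →
          hilbert (doubleIdeal Y) i j = Psi n S e w i j) ∧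
      (∃ (h : ℕ) (n : Fin h → ℕ) (S : Finset (Fin h)) (e w : ℕ), Adm n S e w r ∧
        ∀ i j, (i ≤ 2 ∨ ∑ k, min 2 (n k) ≤ j + 1) →
          hilbert (doubleIdeal Y) i j = Psi n S e w j i)) ∧
    (∀ (h : ℕ) (n : Fin h → ℕ) (S : Finset (Fin h)) (e w : ℕ), Adm n S e w r →
      ∃ Y : Finset Point, Y.card = r ∧
        ∀ i j, (j ≤ 2 ∨ ∑ k, min 2 (n k) ≤ i + 1) →
          hilbert (doubleIdeal Y) i j = Psi n S e w i j) :=
  ⟨fun Y hY => main_one r Y hY, fun h n S e w hadm => main_two r h n S e w hadm⟩
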